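import Mathlib

set_option autoImplicit false

/-!
# Frankl's inequality for semimodular lattices with few lower covers

Let `L` be a finite upper semimodular lattice and `s` a left modular element of `L` (that is,
`(x ⊔ s) ⊓ z = x ⊔ (s ⊓ z)` for all `x ≤ z`), not the greatest one, such that every element that is
an irredundant join of three elements of `[s, 1]` and a join-irreducible whose lower cover is not
below `s` covers at most four elements.  Then some join-irreducible not below `s` is below at most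
half of the elements of `L`.  (For instance `L` is geometric, or distributive, or has breadth at
most three, or every element of `L` covers at most four elements.)

Proof.  If `a ⊔ s = 1` for a join-irreducible `a`, then `y = a ⊔ (s ⊓ y)` for all `y ≥ a`, and
`y ↦ s ⊓ y` is an injection of `[a, 1]` into the elements not above `a`.  Otherwise take `c ≥ s`
maximal such that no join-irreducible `a` has `a ⊔ c = 1`; some join-irreducibles `a`, `b` have
`a ⊔ b ⊔ c = 1`.  Fix a maximal chain `s = c₀ < ... < c_m = c` and take the pair `a`, `b` for which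
the sequence `(w ⊔ c_m, ..., w ⊔ c₀)`, `w = a ⊔ b`, is lexicographically maximal.  Exchange: if a
join-irreducible `d` is not below `w ⊔ c_j`, then `a` is not below `b ⊔ d ⊔ c_j` and `b` is not
below `a ⊔ d ⊔ c_j`.

Let `y ≥ w` and let `B` be the set of the elements below `y` which cover an element below `s` (so
below `s ⊓ y`), with join `t`.  By `covers_basis` for every `g` there is `t' ≤ t`, the join of a
subset of `B` independent over `g`, with `g ⊔ t' = g ⊔ t` such that `s ⊓ y ≤ x ≤ g`, `a ≤ g`,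
`a ≰ x` imply `a ≰ x ⊔ t'`.

If `y ≥ s`, let `k` be the last index with `c_k ≤ y` and `τ = c_k`; otherwise let `k = 0` and
`τ = s ⊓ y`.  If `w ⊔ τ ≤ v ≤ x ≤ y` and `x ≤ v ⊔ c_k`, then `x ≤ v` (left modularity).  Let
`V = w ⊔ τ ⊔ t ≤ y`.  The elements `V ⊔ d` with `d ≤ y` join-irreducible form a chain: otherwise
`V ⊔ d₁`, `V ⊔ d₂` are incomparable, so that `d₁`, `d₂` are not in `B`, and so are
`w ⊔ t ⊔ c_k ⊔ d₁`, `w ⊔ t ⊔ c_k ⊔ d₂`; let `i < m` be the last index with `w ⊔ t ⊔ c_i ⊔ d₁`,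
`w ⊔ t ⊔ c_i ⊔ d₂` incomparable, say `d₁ ≤ w ⊔ t ⊔ c_(i+1) ⊔ d₂ =: Z`.  Then
`Z = w ⊔ t ⊔ c_i ⊔ d₁ ⊔ d₂`, and with the `t'` of `g = w ⊔ d₂ ⊔ c_(i+1)` it is the irredundant
join of `a ⊔ s`, `b ⊔ s`, `c_(i+1) ⊔ t'`, `d₂`; `five_covers` gives five lower covers of `Z`.  So
`y = V` or `y = V ⊔ d`, and `x = τ ⊔ t'`, resp. `x = τ ⊔ d ⊔ t'` (with the `t'` of `w ⊔ τ`, resp.
`w ⊔ τ ⊔ d`), is above neither `a` nor `b`, and `w ⊔ x = y`.  Hence at most as many elements are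
above `a` and `b` as above neither.
-/

namespace Pool.Agent.Results.MP_e8229a_co.FourCovers

open Finset

/-! ## Lattices -/

section Lat

variable {L : Type*} [Lattice L]

lemma wcov_sup [IsUpperModularLattice L] {x y : L} (h : x ⩿ y) (z : L) : z ⊔ x ⩿ z ⊔ y := by
  by_cases hy : y ≤ z ⊔ x
  · have : z ⊔ y = z ⊔ x := le_antisymm (sup_le le_sup_left hy) (sup_le_sup_left h.le z)
    rw [this]
    exact WCovBy.refl _
  · have hne : y ⊓ (z ⊔ x) ≠ y := fun he => hy (inf_eq_left.1 he)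
    have hlt : y ⊓ (z ⊔ x) < y := lt_of_le_of_ne inf_le_left hne
    have hx : x ≤ y ⊓ (z ⊔ x) := le_inf h.le le_sup_right
    have hxe : y ⊓ (z ⊔ x) = x := by
      by_contra hc
      exact h.2 (lt_of_le_of_ne hx (Ne.symm hc)) hlt
    have hcov : y ⊓ (z ⊔ x) ⋖ y := by
      rw [hxe]
      exact h.covBy_of_ne (fun e => hne (by rw [hxe, e]))
    have h2 := IsUpperModularLattice.covBy_sup_of_inf_covBy hcov
    have h3 : y ⊔ (z ⊔ x) = z ⊔ y := by
      apply le_antisymm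
      · exact sup_le le_sup_right (sup_le_sup_left h.le z)
      · exact sup_le (le_sup_left.trans le_sup_right) le_sup_left
    rw [h3] at h2
    exact h2.wcovBy

/-- Elements which cover an element below `σ` and are independent over `g` do not help an element
above `σ` to reach an element below `g`. -/
lemma covers_basis [OrderBot L] [IsUpperModularLattice L] (σ g : L) (B : Finset L)
    (hB : ∀ e ∈ B, ∃ f : L, f ⋖ e ∧ f ≤ σ) :
    ∃ t : L, t ≤ B.sup id ∧ g ⊔ t = g ⊔ B.sup id ∧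
      ∀ x a : L, σ ≤ x → x ≤ g → a ≤ g → ¬ a ≤ x → ¬ a ≤ x ⊔ t := by
  classical
  induction B using Finset.induction_on with
  | empty => exact ⟨⊥, by simp, by simp, fun x a _ _ _ h => by simpa using h⟩
  | insert e B he ih =>
    obtain ⟨t, ht, hgt, hat⟩ := ih (fun e' he' => hB e' (Finset.mem_insert_of_mem he'))
    rw [Finset.sup_insert]
    by_cases heg : e ≤ g ⊔ B.sup id
    · refine ⟨t, ht.trans le_sup_right, ?_, hat⟩
      rw [hgt]
      exact le_antisymm (sup_le le_sup_left (le_sup_right.trans le_sup_right))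
        (sup_le le_sup_left (sup_le heg le_sup_right))
    · refine ⟨t ⊔ e, sup_le (ht.trans le_sup_right) le_sup_left, ?_, ?_⟩
      · rw [← sup_assoc, hgt]
        exact le_antisymm (sup_le (sup_le le_sup_left (le_sup_right.trans le_sup_right))
          (le_sup_left.trans le_sup_right)) (sup_le (le_sup_left.trans le_sup_left)
          (sup_le le_sup_right (le_sup_right.trans le_sup_left)))
      · intro x a hσ hx ha hax hcon
        have h1 := hat x a hσ hx ha hax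
        obtain ⟨f, hfe, hfσ⟩ := hB e (Finset.mem_insert_self e B)
        have hcov : x ⊔ t ⊔ f ⩿ x ⊔ t ⊔ e := wcov_sup hfe.wcovBy (x ⊔ t)
        rw [sup_eq_left.2 ((hfσ.trans hσ).trans le_sup_left : f ≤ x ⊔ t)] at hcov
        have hlt : x ⊔ t < x ⊔ t ⊔ a :=
          lt_of_le_of_ne le_sup_left (fun h2 => h1 (by rw [h2]; exact le_sup_right))
        have hle : x ⊔ t ⊔ a ≤ x ⊔ t ⊔ e :=
          sup_le le_sup_left (by rw [sup_assoc]; exact hcon)
        have heq : x ⊔ t ⊔ a = x ⊔ t ⊔ e := by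
          by_contra hn
          exact hcov.2 hlt (lt_of_le_of_ne hle hn)
        apply heg
        rw [← hgt]
        calc e ≤ x ⊔ t ⊔ e := le_sup_right
          _ = x ⊔ t ⊔ a := heq.symm
          _ ≤ g ⊔ t := sup_le (sup_le (hx.trans le_sup_left) le_sup_right) (ha.trans le_sup_left)

lemma exists_last (c : ℕ → L) (y : L) (h0 : c 0 ≤ y) :
    ∀ m : ℕ, ∃ k, k ≤ m ∧ c k ≤ y ∧ (k = m ∨ ¬ c (k + 1) ≤ y) := by
  intro m
  induction m with
  | zero => exact ⟨0, le_rfl, h0, Or.inl rfl⟩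
  | succ m ih =>
    obtain ⟨k, hk, hck, h⟩ := ih
    rcases h with h | h
    · subst h
      by_cases h1 : c (k + 1) ≤ y
      · exact ⟨k + 1, le_rfl, h1, Or.inl rfl⟩
      · exact ⟨k, by omega, hck, Or.inr h1⟩
    · exact ⟨k, by omega, hck, Or.inr h⟩

lemma exists_supIrred_le [OrderBot L] [Finite L] {y v : L} (h : ¬ y ≤ v) :
    ∃ d : L, SupIrred d ∧ d ≤ y ∧ ¬ d ≤ v := by
  obtain ⟨d, ⟨hdy, hdv⟩, hmin⟩ :=
    (wellFounded_lt : WellFounded ((· < ·) : L → L → Prop)).has_min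
      {z : L | z ≤ y ∧ ¬ z ≤ v} ⟨y, le_rfl, h⟩
  refine ⟨d, ⟨?_, ?_⟩, hdy, hdv⟩
  · intro hm
    exact hdv ((hm bot_le).trans bot_le)
  · intro b c hbc
    by_contra hcon
    push Not at hcon
    have hb : b < d := lt_of_le_of_ne (hbc ▸ le_sup_left) hcon.1
    have hc : c < d := lt_of_le_of_ne (hbc ▸ le_sup_right) hcon.2
    have hb' : b ≤ v := by
      by_contra hn
      exact hmin b ⟨hb.le.trans hdy, hn⟩ hb
    have hc' : c ≤ v := by
      by_contra hn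
      exact hmin c ⟨hc.le.trans hdy, hn⟩ hc
    exact hdv (hbc ▸ sup_le hb' hc')

/-- A maximal chain from `s` to `x`. -/
lemma exists_chain_from [Finite L] (s x : L) (hsx : s ≤ x) :
    ∃ (m : ℕ) (c : ℕ → L), c 0 = s ∧ c m = x ∧ ∀ k, c k ⩿ c (k + 1) := by
  induction x using WellFoundedLT.induction with
  | ind x ih =>
    by_cases hx : x = s
    · exact ⟨0, fun _ => s, rfl, hx.symm, fun k => WCovBy.refl _⟩
    · have hlt : s < x := lt_of_le_of_ne hsx (Ne.symm hx)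
      obtain ⟨y, hsy, hy⟩ := exists_le_covBy_of_lt hlt
      obtain ⟨m, c, h0, hm, hc⟩ := ih y hy.lt hsy
      refine ⟨m + 1, fun k => if k ≤ m then c k else x, ?_, ?_, ?_⟩
      · simp [h0]
      · simp
      · intro k
        rcases lt_trichotomy k m with h | h | h
        · have h1 : k ≤ m := h.le
          have h2 : k + 1 ≤ m := h
          simpa [h1, h2] using hc k
        · subst h
          simpa [hm] using hy.wcovBy
        · have h1 : ¬ k ≤ m := by omega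
          have h2 : ¬ k + 1 ≤ m := by omega
          simp [h1, h2]

/-- A lexicographically maximal element. -/
lemma exists_lexmax {P : Type*} (f : ℕ → P → L) [Finite P] (n : ℕ) (S : Set P)
    (hS : S.Nonempty) :
    ∃ p ∈ S, ∀ q ∈ S, ∀ j < n, (∀ i, j ≤ i → i < n → f i p ≤ f i q) → f j q ≤ f j p := by
  induction n generalizing S with
  | zero =>
    obtain ⟨p, hp⟩ := hS
    exact ⟨p, hp, fun q _ j hj => absurd hj (Nat.not_lt_zero j)⟩
  | succ n ih =>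
    obtain ⟨p0, hp0⟩ := Set.Finite.exists_maximalFor (f n) S (Set.toFinite S) hS
    obtain ⟨p, hp, hlex⟩ := ih {q | q ∈ S ∧ f n q = f n p0} ⟨p0, hp0.1, rfl⟩
    refine ⟨p, hp.1, fun q hq j hj hle => ?_⟩
    have h1 : f n p0 ≤ f n q := by
      rw [← hp.2]
      exact hle n (Nat.lt_succ_iff.mp hj) (Nat.lt_succ_self n)
    have h2 : f n q = f n p0 := le_antisymm (hp0.2 hq h1) h1
    rcases Nat.lt_succ_iff_lt_or_eq.mp hj with h3 | h3
    · exact hlex q ⟨hq, h2⟩ j h3 (fun i hi hin => hle i hi (hin.trans (Nat.lt_succ_self n)))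
    · subst h3
      rw [h2, hp.2]

/-- Five lower covers. -/
lemma five_covers [Finite L] [IsUpperModularLattice L] {a b d₁ d₂ s t : L} (hst : s ⩿ t)
    (h1 : ¬ d₁ ≤ a ⊔ b ⊔ s ⊔ d₂) (h2 : ¬ d₂ ≤ a ⊔ b ⊔ s ⊔ d₁)
    (h3 : d₁ ≤ a ⊔ b ⊔ t ⊔ d₂) (h4 : ¬ s ≤ a ⊔ b ⊔ d₁ ⊔ d₂)
    (ha : ¬ a ≤ b ⊔ d₂ ⊔ t) (hb : ¬ b ≤ a ⊔ d₂ ⊔ t) :
    ¬ {x : L | x ⋖ a ⊔ b ⊔ d₂ ⊔ t}.ncard ≤ 4 := by
  set Z := a ⊔ b ⊔ d₂ ⊔ t with hZ
  have haZ : a ≤ Z := le_sup_left.trans (le_sup_left.trans le_sup_left)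
  have hbZ : b ≤ Z := le_sup_right.trans (le_sup_left.trans le_sup_left)
  have hdZ : d₂ ≤ Z := le_sup_right.trans le_sup_left
  have htZ : t ≤ Z := le_sup_right
  have hsZ : s ≤ Z := hst.le.trans htZ
  have hle : ∀ z : L, a ≤ z → b ≤ z → d₂ ≤ z → t ≤ z → Z ≤ z := fun z p q r u =>
    sup_le (sup_le (sup_le p q) r) u
  have hd1Z : d₁ ≤ Z := h3.trans (sup_le (sup_le (sup_le haZ hbZ) htZ) hdZ)
  -- the first lower cover
  have hcov : a ⊔ b ⊔ d₂ ⊔ s ⩿ Z := wcov_sup hst (a ⊔ b ⊔ d₂)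
  have hus : a ⊔ b ⊔ s ⊔ d₂ = a ⊔ b ⊔ d₂ ⊔ s := sup_right_comm _ _ _
  rw [hus] at h1
  have hu : a ⊔ b ⊔ d₂ ⊔ s ⋖ Z := by
    refine hcov.covBy_of_ne (fun h => h1 ?_)
    rw [h]
    exact hd1Z
  -- `Z` is also generated by `a, b, s, d₁, d₂`
  have hZ' : ∀ z : L, a ≤ z → b ≤ z → s ≤ z → d₁ ≤ z → d₂ ≤ z → Z ≤ z := by
    intro z p q r u v
    have h5 : a ⊔ b ⊔ d₂ ⊔ s < (a ⊔ b ⊔ d₂ ⊔ s) ⊔ d₁ :=
      lt_of_le_of_ne le_sup_left (fun h => h1 (by rw [h]; exact le_sup_right))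
    have h6 : (a ⊔ b ⊔ d₂ ⊔ s) ⊔ d₁ ≤ Z := sup_le hu.le hd1Z
    rcases hu.eq_or_eq h5.le h6 with h7 | h7
    · exact absurd h7 h5.ne'
    · rw [← h7]
      exact sup_le (sup_le (sup_le (sup_le p q) v) r) u
  have cov : ∀ z : L, z ≤ Z → z ≠ Z → ∃ m : L, m ⋖ Z ∧ z ≤ m := by
    intro z hz hne
    obtain ⟨m, hm1, hm2⟩ := exists_le_covBy_of_lt (lt_of_le_of_ne hz hne)
    exact ⟨m, hm2, hm1⟩
  obtain ⟨m₂, hm₂, hm₂'⟩ := cov (a ⊔ b ⊔ s ⊔ d₁)
    (sup_le (sup_le (sup_le haZ hbZ) hsZ) hd1Z) (fun h => h2 (by rw [h]; exact hdZ))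
  obtain ⟨m₃, hm₃, hm₃'⟩ := cov (a ⊔ b ⊔ d₁ ⊔ d₂)
    (sup_le (sup_le (sup_le haZ hbZ) hd1Z) hdZ) (fun h => h4 (by rw [h]; exact hsZ))
  obtain ⟨m₄, hm₄, hm₄'⟩ := cov (b ⊔ d₂ ⊔ t)
    (sup_le (sup_le hbZ hdZ) htZ) (fun h => ha (by rw [h]; exact haZ))
  obtain ⟨m₅, hm₅, hm₅'⟩ := cov (a ⊔ d₂ ⊔ t)
    (sup_le (sup_le haZ hdZ) htZ) (fun h => hb (by rw [h]; exact hbZ))
  -- what the five lower covers contain
  have a1 : a ≤ a ⊔ b ⊔ d₂ ⊔ s := le_sup_left.trans (le_sup_left.trans le_sup_left)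
  have b1 : b ≤ a ⊔ b ⊔ d₂ ⊔ s := le_sup_right.trans (le_sup_left.trans le_sup_left)
  have e1 : d₂ ≤ a ⊔ b ⊔ d₂ ⊔ s := le_sup_right.trans le_sup_left
  have s1 : s ≤ a ⊔ b ⊔ d₂ ⊔ s := le_sup_right
  have a2 : a ≤ m₂ := (le_sup_left.trans (le_sup_left.trans le_sup_left)).trans hm₂'
  have b2 : b ≤ m₂ := (le_sup_right.trans (le_sup_left.trans le_sup_left)).trans hm₂'
  have s2 : s ≤ m₂ := (le_sup_right.trans le_sup_left).trans hm₂'
  have f2 : d₁ ≤ m₂ := le_sup_right.trans hm₂'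
  have e2 : ¬ d₂ ≤ m₂ := fun h => absurd (hZ' m₂ a2 b2 s2 f2 h) (not_le_of_gt hm₂.lt)
  have a3 : a ≤ m₃ := (le_sup_left.trans (le_sup_left.trans le_sup_left)).trans hm₃'
  have b3 : b ≤ m₃ := (le_sup_right.trans (le_sup_left.trans le_sup_left)).trans hm₃'
  have f3 : d₁ ≤ m₃ := (le_sup_right.trans le_sup_left).trans hm₃'
  have e3 : d₂ ≤ m₃ := le_sup_right.trans hm₃'
  have s3 : ¬ s ≤ m₃ := fun h => absurd (hZ' m₃ a3 b3 h f3 e3) (not_le_of_gt hm₃.lt)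
  have b4 : b ≤ m₄ := (le_sup_left.trans le_sup_left).trans hm₄'
  have e4 : d₂ ≤ m₄ := (le_sup_right.trans le_sup_left).trans hm₄'
  have t4 : t ≤ m₄ := le_sup_right.trans hm₄'
  have a4 : ¬ a ≤ m₄ := fun h => absurd (hle m₄ h b4 e4 t4) (not_le_of_gt hm₄.lt)
  have a5 : a ≤ m₅ := (le_sup_left.trans le_sup_left).trans hm₅'
  have e5 : d₂ ≤ m₅ := (le_sup_right.trans le_sup_left).trans hm₅'
  have t5 : t ≤ m₅ := le_sup_right.trans hm₅'
  have b5 : ¬ b ≤ m₅ := fun h => absurd (hle m₅ a5 h e5 t5) (not_le_of_gt hm₅.lt)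
  classical
  have hcard : (({a ⊔ b ⊔ d₂ ⊔ s, m₂, m₃, m₄, m₅} : Finset L)).card = 5 := by
    rw [Finset.card_insert_of_notMem, Finset.card_insert_of_notMem,
      Finset.card_insert_of_notMem, Finset.card_insert_of_notMem, Finset.card_singleton]
    · simp only [Finset.mem_singleton]
      exact fun h => a4 (h ▸ a5)
    · simp only [Finset.mem_insert, Finset.mem_singleton, not_or]
      exact ⟨fun h => a4 (h ▸ a3), fun h => b5 (h ▸ b3)⟩
    · simp only [Finset.mem_insert, Finset.mem_singleton, not_or]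
      exact ⟨fun h => s3 (h ▸ s2), fun h => a4 (h ▸ a2), fun h => b5 (h ▸ b2)⟩
    · simp only [Finset.mem_insert, Finset.mem_singleton, not_or]
      exact ⟨fun h => e2 (h ▸ e1), fun h => s3 (h ▸ s1), fun h => a4 (h ▸ a1),
        fun h => b5 (h ▸ b1)⟩
  have hsub : (({a ⊔ b ⊔ d₂ ⊔ s, m₂, m₃, m₄, m₅} : Finset L) : Set L) ⊆ {x : L | x ⋖ Z} := by
    intro x hx
    simp only [Finset.coe_insert, Finset.coe_singleton, Set.mem_insert_iff,
      Set.mem_singleton_iff] at hx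
    rcases hx with rfl | rfl | rfl | rfl | rfl
    · exact hu
    · exact hm₂
    · exact hm₃
    · exact hm₄
    · exact hm₅
  have h8 := Set.ncard_le_ncard hsub (Set.toFinite _)
  rw [Set.ncard_coe_finset, hcard] at h8
  omega

end Lat

/-! ## Counting -/

section Count

variable {L : Type*} [Lattice L] [Fintype L]

open Classical in
/-- The number of elements above `a`. -/
noncomputable def up (a : L) : ℕ := (univ.filter (fun x : L => a ≤ x)).card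

open Classical in
lemma up_add_up (a b : L)
    (h : (univ.filter (fun y : L => a ≤ y ∧ b ≤ y)).card ≤
      (univ.filter (fun x : L => ¬ a ≤ x ∧ ¬ b ≤ x)).card) :
    up a + up b ≤ Fintype.card L := by
  have h1 : up a + up b = (univ.filter (fun x : L => a ≤ x) ∪ univ.filter (fun x : L => b ≤ x)).card
      + (univ.filter (fun x : L => a ≤ x) ∩ univ.filter (fun x : L => b ≤ x)).card :=
    (Finset.card_union_add_card_inter _ _).symm
  have h2 : univ.filter (fun x : L => a ≤ x) ∩ univ.filter (fun x : L => b ≤ x) =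
      univ.filter (fun y : L => a ≤ y ∧ b ≤ y) := by
    ext z; simp
  have h3 : (univ.filter (fun x : L => a ≤ x) ∪ univ.filter (fun x : L => b ≤ x)).card +
      (univ.filter (fun x : L => ¬ a ≤ x ∧ ¬ b ≤ x)).card = Fintype.card L := by
    rw [← Finset.card_union_of_disjoint, ← Finset.card_univ]
    · congr 1
      ext z
      simp only [mem_union, mem_filter, mem_univ, true_and, iff_true]
      tauto
    · rw [Finset.disjoint_left]
      intro z hz hz'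
      simp only [mem_union, mem_filter, mem_univ, true_and] at hz hz'
      tauto
  rw [h2] at h1
  omega

lemma up_add_up_of_key (a b : L)
    (key : ∀ y : L, a ⊔ b ≤ y → ∃ e : L, ¬ a ≤ e ∧ ¬ b ≤ e ∧ a ⊔ b ⊔ e = y) :
    up a + up b ≤ Fintype.card L := by
  classical
  apply up_add_up a b
  have key' : ∀ y : L, ∃ e : L, a ⊔ b ≤ y → (¬ a ≤ e ∧ ¬ b ≤ e ∧ a ⊔ b ⊔ e = y) := by
    intro y
    by_cases hy : a ⊔ b ≤ y
    · obtain ⟨e, he⟩ := key y hy
      exact ⟨e, fun _ => he⟩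
    · exact ⟨y, fun h => absurd h hy⟩
  choose g hg using key'
  apply Finset.card_le_card_of_injOn g
  · intro y hy
    have hy' : a ≤ y ∧ b ≤ y := by simpa using hy
    have h1 := hg y (sup_le hy'.1 hy'.2)
    simpa using ⟨h1.1, h1.2.1⟩
  · intro y hy z hz hyz
    have hy' : a ≤ y ∧ b ≤ y := by simpa using hy
    have hz' : a ≤ z ∧ b ≤ z := by simpa using hz
    have h1 := (hg y (sup_le hy'.1 hy'.2)).2.2
    have h2 := (hg z (sup_le hz'.1 hz'.2)).2.2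
    rw [← h1, ← h2, hyz]

end Count

section Main

variable {L : Type*} [Lattice L] [Fintype L] [BoundedOrder L]

/-- A pair of join-irreducibles such that every element above both is `a ⊔ b ⊔ e` with `e` above
neither. -/
lemma exists_pair_four [IsUpperModularLattice L] (s : L)
    (hmod : ∀ x z : L, x ≤ z → (x ⊔ s) ⊓ z = x ⊔ (s ⊓ z))
    (h : ∀ p q r d : L, s ≤ p → s ≤ q → s ≤ r → SupIrred d → (∀ f : L, f ⋖ d → ¬ f ≤ s) →
      p ≤ q ⊔ r ⊔ d ∨ q ≤ p ⊔ r ⊔ d ∨ r ≤ p ⊔ q ⊔ d ∨ d ≤ p ⊔ q ⊔ r ∨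
      {x : L | x ⋖ p ⊔ q ⊔ r ⊔ d}.ncard ≤ 4)
    (c : L) (hsc : s ≤ c) (hc : ∀ a : L, SupIrred a → a ⊔ c ≠ ⊤)
    (h0 : ∃ a b : L, SupIrred a ∧ SupIrred b ∧ a ⊔ b ⊔ c = ⊤) :
    ∃ a b : L, (SupIrred a ∧ ¬ a ≤ s) ∧ (SupIrred b ∧ ¬ b ≤ s) ∧
      ∀ y : L, a ⊔ b ≤ y → ∃ e : L, ¬ a ≤ e ∧ ¬ b ≤ e ∧ a ⊔ b ⊔ e = y := by
  obtain ⟨m, ch, hch0, hchm, hcov⟩ := exists_chain_from s c hsc
  have hmono : Monotone ch := monotone_nat_of_le_succ (fun k => (hcov k).le)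
  obtain ⟨⟨a, b⟩, ⟨ha, hb, hab⟩, hlex⟩ := exists_lexmax
    (fun i (p : L × L) => p.1 ⊔ p.2 ⊔ ch i) (m + 1)
    {p : L × L | SupIrred p.1 ∧ SupIrred p.2 ∧ p.1 ⊔ p.2 ⊔ c = ⊤}
    (by obtain ⟨a, b, h1⟩ := h0; exact ⟨(a, b), h1⟩)
  simp only at ha hb hab hlex
  -- exchange
  have exa : ∀ j ≤ m, ∀ d : L, SupIrred d → ¬ d ≤ a ⊔ b ⊔ ch j → ¬ a ≤ b ⊔ d ⊔ ch j := by
    intro j hj d hd hdj hle
    have key : ∀ i, j ≤ i → i < m + 1 → a ⊔ b ⊔ ch i ≤ d ⊔ b ⊔ ch i := by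
      intro i hji him
      have h1 : ch j ≤ ch i := hmono hji
      refine sup_le (sup_le (hle.trans (sup_le (sup_le (le_sup_right.trans le_sup_left)
        (le_sup_left.trans le_sup_left)) (h1.trans le_sup_right)))
        (le_sup_right.trans le_sup_left)) le_sup_right
    have hq : d ⊔ b ⊔ c = ⊤ := by
      have := key m hj (by omega)
      rw [hchm, hab] at this
      exact top_le_iff.mp this
    have := hlex (d, b) ⟨hd, hb, hq⟩ j (by omega) key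
    exact hdj ((le_sup_left.trans le_sup_left).trans this)
  have exb : ∀ j ≤ m, ∀ d : L, SupIrred d → ¬ d ≤ a ⊔ b ⊔ ch j → ¬ b ≤ a ⊔ d ⊔ ch j := by
    intro j hj d hd hdj hle
    have key : ∀ i, j ≤ i → i < m + 1 → a ⊔ b ⊔ ch i ≤ a ⊔ d ⊔ ch i := by
      intro i hji him
      have h1 : ch j ≤ ch i := hmono hji
      exact sup_le (sup_le (le_sup_left.trans le_sup_left) (hle.trans (sup_le (sup_le
        (le_sup_left.trans le_sup_left) (le_sup_right.trans le_sup_left))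
        (h1.trans le_sup_right)))) le_sup_right
    have hq : a ⊔ d ⊔ c = ⊤ := by
      have := key m hj (by omega)
      rw [hchm, hab] at this
      exact top_le_iff.mp this
    have := hlex (a, d) ⟨ha, hd, hq⟩ j (by omega) key
    exact hdj ((le_sup_right.trans le_sup_left).trans this)
  have hac : ¬ a ≤ c := fun h1 => hc b hb (by
    rw [← top_le_iff, ← hab]
    exact sup_le (sup_le (h1.trans le_sup_right) le_sup_left) le_sup_right)
  have hbc : ¬ b ≤ c := fun h1 => hc a ha (by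
    rw [← top_le_iff, ← hab]
    exact sup_le (sup_le le_sup_left (h1.trans le_sup_right)) le_sup_right)
  refine ⟨a, b, ⟨ha, fun h1 => hac (h1.trans hsc)⟩, ⟨hb, fun h1 => hbc (h1.trans hsc)⟩,
    fun y hy => ?_⟩
  -- the element `τ` and the index `k`
  obtain ⟨τ, k, hkm, hτk, hτy, hσ, hinc, hno⟩ : ∃ (τ : L) (k : ℕ), k ≤ m ∧ τ ≤ ch k ∧ τ ≤ y ∧
      s ⊓ y ≤ τ ∧
      (∀ v x : L, a ⊔ b ⊔ τ ≤ v → v ≤ x → x ≤ y → x ≤ v ⊔ ch k → x ≤ v) ∧
      ∀ i, k ≤ i → i < m → ¬ ch (i + 1) ≤ y := by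
    by_cases hsy : s ≤ y
    · obtain ⟨k, hk, hck, hlast⟩ := exists_last ch y (by rw [hch0]; exact hsy) m
      refine ⟨ch k, k, hk, le_rfl, hck, inf_le_left.trans (hch0 ▸ hmono (Nat.zero_le k)),
        fun v x hv hvx hxy hx => ?_, fun i hi him h1 => ?_⟩
      · exact hx.trans (sup_le le_rfl (le_sup_right.trans hv))
      · rcases hlast with h2 | h2
        · omega
        · exact h2 ((hmono (by omega : k + 1 ≤ i + 1)).trans h1)
    · refine ⟨s ⊓ y, 0, Nat.zero_le m, by rw [hch0]; exact inf_le_left, inf_le_right, le_rfl,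
        fun v x hv hvx hxy hx => ?_, fun i _ _ h1 => hsy ?_⟩
      · rw [hch0] at hx
        calc x = (v ⊔ s) ⊓ x := (inf_eq_right.2 hx).symm
          _ = v ⊔ (s ⊓ x) := hmod v x hvx
          _ ≤ v := sup_le le_rfl ((inf_le_inf_left s hxy).trans (le_sup_right.trans hv))
      · have : s ≤ ch (i + 1) := hch0 ▸ hmono (Nat.zero_le (i + 1))
        exact this.trans h1
  have hVy : a ⊔ b ⊔ τ ≤ y := sup_le hy hτy
  have hkc : ch k ≤ c := hchm ▸ hmono hkm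
  -- the elements below `y` which cover an element below `s`
  classical
  obtain ⟨B, hBdef⟩ : ∃ B : Finset L, B = univ.filter
    (fun e : L => (∃ f : L, f ⋖ e ∧ f ≤ s) ∧ e ≤ y) := ⟨_, rfl⟩
  have hB : ∀ e ∈ B, ∃ f : L, f ⋖ e ∧ f ≤ s ⊓ y := fun e he => by
    rw [hBdef] at he
    obtain ⟨f, hf1, hf2⟩ := (Finset.mem_filter.1 he).2.1
    exact ⟨f, hf1, le_inf hf2 (hf1.le.trans (Finset.mem_filter.1 he).2.2)⟩
  obtain ⟨t, ht⟩ : ∃ t : L, t = B.sup id := ⟨_, rfl⟩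
  have hty : t ≤ y := by
    rw [ht]
    refine Finset.sup_le (fun e he => ?_)
    rw [hBdef] at he
    exact (Finset.mem_filter.1 he).2.2
  have hat : ∀ e : L, (∃ f : L, f ⋖ e ∧ f ≤ s) → e ≤ y → e ≤ t := by
    intro e he hey
    rw [ht, hBdef]
    exact Finset.le_sup (f := id) (Finset.mem_filter.2 ⟨Finset.mem_univ _, he, hey⟩)
  have hV'y : a ⊔ b ⊔ τ ⊔ t ≤ y := sup_le hVy hty
  by_cases hyV : y ≤ a ⊔ b ⊔ τ ⊔ t
  · obtain ⟨t', ht't, ht'g, ht'a⟩ := covers_basis (s ⊓ y) (a ⊔ b ⊔ τ) B hB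
    rw [← ht] at ht't ht'g
    refine ⟨τ ⊔ t', ht'a τ a hσ le_sup_right (le_sup_left.trans le_sup_left)
      (fun h1 => hac ((h1.trans hτk).trans hkc)), ht'a τ b hσ le_sup_right
      (le_sup_right.trans le_sup_left) (fun h1 => hbc ((h1.trans hτk).trans hkc)), ?_⟩
    rw [← sup_assoc, ht'g]
    exact le_antisymm hV'y hyV
  by_cases hchain : ∀ d e : L, SupIrred d → SupIrred e → d ≤ y → e ≤ y →
      a ⊔ b ⊔ τ ⊔ t ⊔ d ≤ a ⊔ b ⊔ τ ⊔ t ⊔ e ∨ a ⊔ b ⊔ τ ⊔ t ⊔ e ≤ a ⊔ b ⊔ τ ⊔ t ⊔ d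
  · obtain ⟨d0, hd0, hd0y, _⟩ := exists_supIrred_le hyV
    obtain ⟨d, ⟨hd, hdy⟩, hdmax⟩ := Set.Finite.exists_maximalFor
      (fun d : L => a ⊔ b ⊔ τ ⊔ t ⊔ d) {d : L | SupIrred d ∧ d ≤ y} (Set.toFinite _)
      ⟨d0, hd0, hd0y⟩
    simp only at hdmax
    have hyd : y ≤ a ⊔ b ⊔ τ ⊔ t ⊔ d := by
      by_contra hyd
      obtain ⟨e, he, hey, hed⟩ := exists_supIrred_le hyd
      rcases hchain d e hd he hdy hey with h1 | h1
      · exact hed (le_sup_right.trans (hdmax ⟨he, hey⟩ h1))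
      · exact hed (le_sup_right.trans h1)
    have hdv : ¬ d ≤ a ⊔ b ⊔ ch k := by
      intro h1
      have h2 : a ⊔ b ⊔ τ ⊔ d ≤ a ⊔ b ⊔ τ := by
        refine hinc (a ⊔ b ⊔ τ) (a ⊔ b ⊔ τ ⊔ d) le_rfl le_sup_left (sup_le hVy hdy) ?_
        refine sup_le le_sup_left (h1.trans ?_)
        exact sup_le (le_sup_left.trans le_sup_left) le_sup_right
      exact hyV (hyd.trans (sup_le le_rfl ((le_sup_right.trans h2).trans le_sup_left)))
    obtain ⟨t', ht't, ht'g, ht'a⟩ := covers_basis (s ⊓ y) (a ⊔ b ⊔ τ ⊔ d) B hB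
    rw [← ht] at ht't ht'g
    have hx0 : τ ⊔ d ≤ a ⊔ b ⊔ τ ⊔ d := sup_le (le_sup_right.trans le_sup_left) le_sup_right
    refine ⟨τ ⊔ d ⊔ t', ht'a (τ ⊔ d) a (hσ.trans le_sup_left) hx0 ((le_sup_left.trans le_sup_left).trans le_sup_left)
      (fun h1 => exa k hkm d hd hdv (h1.trans (sup_le (hτk.trans le_sup_right)
      (le_sup_right.trans le_sup_left)))), ht'a (τ ⊔ d) b (hσ.trans le_sup_left) hx0
      ((le_sup_right.trans le_sup_left).trans le_sup_left)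
      (fun h1 => exb k hkm d hd hdv (h1.trans
      (sup_le (hτk.trans le_sup_right) (le_sup_right.trans le_sup_left)))), ?_⟩
    rw [← sup_assoc, ← sup_assoc, ht'g]
    apply le_antisymm (sup_le (sup_le hVy hdy) hty)
    exact hyd.trans (sup_le (sup_le (le_sup_left.trans le_sup_left) le_sup_right)
      (le_sup_right.trans le_sup_left))
  exfalso
  push Not at hchain
  obtain ⟨d₁, d₂, hd₁, hd₂, hd₁y, hd₂y, hn1, hn2⟩ := hchain
  -- neither covers an element below `s`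
  have nat : ∀ d e : L, d ≤ y → ¬ a ⊔ b ⊔ τ ⊔ t ⊔ d ≤ a ⊔ b ⊔ τ ⊔ t ⊔ e →
      ∀ f : L, f ⋖ d → ¬ f ≤ s := by
    intro d e hdy hn f hfd hfs
    exact hn (sup_le le_sup_left
      ((hat d ⟨f, hfd, hfs⟩ hdy).trans (le_sup_right.trans le_sup_left)))
  have hna1 := nat d₁ d₂ hd₁y hn1
  have hna2 := nat d₂ d₁ hd₂y hn2
  have up_inc : ∀ d e : L, d ≤ y → e ≤ y → ¬ a ⊔ b ⊔ τ ⊔ t ⊔ d ≤ a ⊔ b ⊔ τ ⊔ t ⊔ e →
      ¬ a ⊔ b ⊔ t ⊔ ch k ⊔ d ≤ a ⊔ b ⊔ t ⊔ ch k ⊔ e := by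
    intro d e hdy hey hn hle
    apply hn
    have h2 : a ⊔ b ⊔ τ ⊔ t ⊔ e ⊔ d ≤ a ⊔ b ⊔ τ ⊔ t ⊔ e := by
      refine hinc (a ⊔ b ⊔ τ ⊔ t ⊔ e) (a ⊔ b ⊔ τ ⊔ t ⊔ e ⊔ d) (le_sup_left.trans le_sup_left)
        le_sup_left (sup_le (sup_le hV'y hey) hdy) ?_
      refine sup_le le_sup_left ((le_sup_right.trans hle).trans ?_)
      refine sup_le (sup_le (sup_le ?_ ?_) le_sup_right) ?_
      · exact ((le_sup_left.trans le_sup_left).trans le_sup_left).trans le_sup_left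
      · exact (le_sup_right.trans le_sup_left).trans le_sup_left
      · exact le_sup_right.trans le_sup_left
    exact sup_le le_sup_left (le_sup_right.trans h2)
  -- the last index at which the two joins are incomparable
  have hlast : ∃ i, k ≤ i ∧ i < m ∧
      (¬ a ⊔ b ⊔ t ⊔ ch i ⊔ d₁ ≤ a ⊔ b ⊔ t ⊔ ch i ⊔ d₂ ∧
        ¬ a ⊔ b ⊔ t ⊔ ch i ⊔ d₂ ≤ a ⊔ b ⊔ t ⊔ ch i ⊔ d₁) ∧
      (a ⊔ b ⊔ t ⊔ ch (i + 1) ⊔ d₁ ≤ a ⊔ b ⊔ t ⊔ ch (i + 1) ⊔ d₂ ∨
        a ⊔ b ⊔ t ⊔ ch (i + 1) ⊔ d₂ ≤ a ⊔ b ⊔ t ⊔ ch (i + 1) ⊔ d₁) := by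
    by_contra hcon
    push Not at hcon
    have h1 : ∀ j, k ≤ j → j ≤ m →
        (¬ a ⊔ b ⊔ t ⊔ ch j ⊔ d₁ ≤ a ⊔ b ⊔ t ⊔ ch j ⊔ d₂ ∧
          ¬ a ⊔ b ⊔ t ⊔ ch j ⊔ d₂ ≤ a ⊔ b ⊔ t ⊔ ch j ⊔ d₁) := by
      intro j hkj
      induction j, hkj using Nat.le_induction with
      | base => exact fun _ => ⟨up_inc d₁ d₂ hd₁y hd₂y hn1, up_inc d₂ d₁ hd₂y hd₁y hn2⟩
      | succ j hj ihj => exact fun hjm => hcon j hj (by omega) (ihj (by omega))
    refine (h1 m hkm le_rfl).1 ?_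
    have h2 : a ⊔ b ⊔ t ⊔ ch m = ⊤ := by
      rw [hchm, ← top_le_iff, ← hab]
      exact sup_le (le_sup_left.trans le_sup_left) le_sup_right
    rw [h2, top_sup_eq, top_sup_eq]
  obtain ⟨i, hki, him, ⟨hs1, hs2⟩, hs3⟩ := hlast
  -- the contradiction, for the two orders of `d₁`, `d₂`
  have core : ∀ d e : L, SupIrred e → (∀ f : L, f ⋖ e → ¬ f ≤ s) → d ≤ y → e ≤ y →
      ¬ a ⊔ b ⊔ t ⊔ ch i ⊔ d ≤ a ⊔ b ⊔ t ⊔ ch i ⊔ e →
      ¬ a ⊔ b ⊔ t ⊔ ch i ⊔ e ≤ a ⊔ b ⊔ t ⊔ ch i ⊔ d →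
      a ⊔ b ⊔ t ⊔ ch (i + 1) ⊔ d ≤ a ⊔ b ⊔ t ⊔ ch (i + 1) ⊔ e → False := by
    intro d e he hea hdy hey hn1 hn2 hle
    have hst := hcov i
    have h1 : ¬ d ≤ a ⊔ b ⊔ t ⊔ ch i ⊔ e := fun h => hn1 (sup_le le_sup_left h)
    have h2 : ¬ e ≤ a ⊔ b ⊔ t ⊔ ch i ⊔ d := fun h => hn2 (sup_le le_sup_left h)
    have h3 : d ≤ a ⊔ b ⊔ t ⊔ ch (i + 1) ⊔ e := le_sup_right.trans hle
    have hw : a ⊔ b ⊔ t ⊔ e ⊔ ch i ⩿ a ⊔ b ⊔ t ⊔ e ⊔ ch (i + 1) := wcov_sup hst _
    have h5 : a ⊔ b ⊔ t ⊔ e ⊔ ch i < a ⊔ b ⊔ t ⊔ e ⊔ ch i ⊔ d :=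
      lt_of_le_of_ne le_sup_left (fun h => h1 (by
        rw [sup_right_comm (a ⊔ b ⊔ t) (ch i) e, h]; exact le_sup_right))
    have h6 : a ⊔ b ⊔ t ⊔ e ⊔ ch i ⊔ d ≤ a ⊔ b ⊔ t ⊔ e ⊔ ch (i + 1) :=
      sup_le hw.le (by rw [sup_right_comm (a ⊔ b ⊔ t) e (ch (i + 1))]; exact h3)
    have h7 : a ⊔ b ⊔ t ⊔ e ⊔ ch i ⊔ d = a ⊔ b ⊔ t ⊔ e ⊔ ch (i + 1) := by
      rcases h6.eq_or_lt with h | h
      · exact h
      · exact absurd h (hw.2 h5)
    have hchs : ¬ ch i ≤ y := by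
      intro hci
      refine hno i hki him (le_trans ?_ (sup_le (sup_le (sup_le (sup_le hy hty) hey) hci) hdy))
      rw [h7]
      exact le_sup_right
    have he1 : ¬ e ≤ a ⊔ b ⊔ t ⊔ ch (i + 1) := by
      intro h
      have hw' : a ⊔ b ⊔ t ⊔ ch i ⩿ a ⊔ b ⊔ t ⊔ ch (i + 1) := wcov_sup hst _
      have h8 : a ⊔ b ⊔ t ⊔ ch i < a ⊔ b ⊔ t ⊔ e ⊔ ch i := by
        rw [sup_right_comm (a ⊔ b ⊔ t) e (ch i)]
        exact lt_of_le_of_ne le_sup_left (fun h' => hn2 (by rw [← h']; exact le_sup_left))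
      have h9 : a ⊔ b ⊔ t ⊔ e ⊔ ch i < a ⊔ b ⊔ t ⊔ ch (i + 1) := by
        refine h5.trans_le (h7.le.trans ?_)
        exact sup_le (sup_le le_sup_left h) le_sup_right
      exact hw'.2 h8 h9
    have he0 : ¬ e ≤ a ⊔ b ⊔ ch (i + 1) := fun h10 =>
      he1 (h10.trans (sup_le (le_sup_left.trans le_sup_left) le_sup_right))
    have hae0 := exa (i + 1) him e he he0
    have hbe0 := exb (i + 1) him e he he0
    have hσi : s ⊓ y ≤ ch (i + 1) := inf_le_left.trans (hch0 ▸ hmono (Nat.zero_le (i + 1)))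
    obtain ⟨t', ht't, ht'g, ht'a⟩ := covers_basis (s ⊓ y) (a ⊔ b ⊔ e ⊔ ch (i + 1)) B hB
    rw [← ht] at ht't ht'g
    have hae : ¬ a ≤ b ⊔ e ⊔ (ch (i + 1) ⊔ t') := by
      rw [← sup_assoc]
      refine ht'a _ a (hσi.trans le_sup_right) ?_
        ((le_sup_left.trans le_sup_left).trans le_sup_left) hae0
      exact sup_le_sup_right (sup_le_sup_right le_sup_right _) _
    have hbe : ¬ b ≤ a ⊔ e ⊔ (ch (i + 1) ⊔ t') := by
      rw [← sup_assoc]
      refine ht'a _ b (hσi.trans le_sup_right) ?_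
        ((le_sup_right.trans le_sup_left).trans le_sup_left) hbe0
      exact sup_le_sup_right (sup_le_sup_right le_sup_left _) _
    have hZt : a ⊔ b ⊔ t ⊔ e ⊔ ch (i + 1) ≤ a ⊔ b ⊔ e ⊔ (ch (i + 1) ⊔ t') := by
      rw [← sup_assoc, ht'g]
      exact sup_le (sup_le (sup_le ((le_sup_left.trans le_sup_left).trans le_sup_left)
        le_sup_right) ((le_sup_right.trans le_sup_left).trans le_sup_left))
        (le_sup_right.trans le_sup_left)
    have hst' : ch i ⊔ t' ⩿ ch (i + 1) ⊔ t' := by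
      rw [sup_comm (ch i) t', sup_comm (ch (i + 1)) t']
      exact wcov_sup hst t'
    have hsi : s ≤ ch (i + 1) := hch0 ▸ hmono (Nat.zero_le (i + 1))
    have hsi' : s ≤ ch i := hch0 ▸ hmono (Nat.zero_le i)
    have g1 : ¬ d ≤ a ⊔ b ⊔ (ch i ⊔ t') ⊔ e := fun h10 => h1 (h10.trans
      (sup_le (sup_le ((le_sup_left.trans le_sup_left).trans le_sup_left) (sup_le
        (le_sup_right.trans le_sup_left)
        (ht't.trans ((le_sup_right.trans le_sup_left).trans le_sup_left)))) le_sup_right))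
    have g2 : ¬ e ≤ a ⊔ b ⊔ (ch i ⊔ t') ⊔ d := fun h10 => h2 (h10.trans
      (sup_le (sup_le ((le_sup_left.trans le_sup_left).trans le_sup_left) (sup_le
        (le_sup_right.trans le_sup_left)
        (ht't.trans ((le_sup_right.trans le_sup_left).trans le_sup_left)))) le_sup_right))
    have g3 : d ≤ a ⊔ b ⊔ (ch (i + 1) ⊔ t') ⊔ e := by
      rw [sup_right_comm (a ⊔ b) (ch (i + 1) ⊔ t') e]
      refine le_trans ?_ hZt
      rw [← h7]
      exact le_sup_right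
    have g4 : ¬ ch i ⊔ t' ≤ a ⊔ b ⊔ d ⊔ e := fun h10 =>
      hchs ((le_sup_left.trans h10).trans (sup_le (sup_le hy hdy) hey))
    have hcc : ch (i + 1) ≤ a ⊔ b ⊔ e ⊔ s → False := by
      intro hcon
      have h10 : a ⊔ b ⊔ t ⊔ e ⊔ ch (i + 1) ≤ a ⊔ b ⊔ t ⊔ e ⊔ ch i := by
        refine sup_le le_sup_left (hcon.trans (sup_le (sup_le ?_ ?_) (hsi'.trans le_sup_right)))
        · exact (le_sup_left.trans le_sup_left).trans le_sup_left
        · exact le_sup_right.trans le_sup_left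
      exact absurd (h5.trans_le (h7.le.trans h10)) (lt_irrefl _)
    have hZ : a ⊔ s ⊔ (b ⊔ s) ⊔ (ch (i + 1) ⊔ t') ⊔ e = a ⊔ b ⊔ e ⊔ (ch (i + 1) ⊔ t') := by
      rw [sup_right_comm (a ⊔ b) e (ch (i + 1) ⊔ t')]
      congr 1
      apply le_antisymm
      · refine sup_le (sup_le (sup_le ?_ ?_) (sup_le ?_ ?_)) le_sup_right
        · exact le_sup_left.trans le_sup_left
        · exact (hsi.trans le_sup_left).trans le_sup_right
        · exact le_sup_right.trans le_sup_left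
        · exact (hsi.trans le_sup_left).trans le_sup_right
      · exact sup_le_sup_right (sup_le_sup le_sup_left le_sup_left) _
    rcases h (a ⊔ s) (b ⊔ s) (ch (i + 1) ⊔ t') e le_sup_right le_sup_right
      (hsi.trans le_sup_left) he hea with h' | h' | h' | h' | h'
    · refine hae ((le_sup_left.trans h').trans ?_)
      refine sup_le (sup_le (sup_le ?_ ?_) le_sup_right) ?_
      · exact le_sup_left.trans le_sup_left
      · exact (hsi.trans le_sup_left).trans le_sup_right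
      · exact le_sup_right.trans le_sup_left
    · refine hbe ((le_sup_left.trans h').trans ?_)
      refine sup_le (sup_le (sup_le ?_ ?_) le_sup_right) ?_
      · exact le_sup_left.trans le_sup_left
      · exact (hsi.trans le_sup_left).trans le_sup_right
      · exact le_sup_right.trans le_sup_left
    · refine hcc ((le_sup_left.trans h').trans ?_)
      refine sup_le (sup_le (sup_le ?_ le_sup_right) (sup_le ?_ le_sup_right)) ?_
      · exact (le_sup_left.trans le_sup_left).trans le_sup_left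
      · exact (le_sup_right.trans le_sup_left).trans le_sup_left
      · exact le_sup_right.trans le_sup_left
    · refine he1 (h'.trans ?_)
      refine sup_le (sup_le (sup_le ?_ ?_) (sup_le ?_ ?_)) (sup_le le_sup_right ?_)
      · exact (le_sup_left.trans le_sup_left).trans le_sup_left
      · exact hsi.trans le_sup_right
      · exact (le_sup_right.trans le_sup_left).trans le_sup_left
      · exact hsi.trans le_sup_right
      · exact ht't.trans (le_sup_right.trans le_sup_left)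
    · rw [hZ] at h'
      exact five_covers hst' g1 g2 g3 g4 hae hbe h'
  rcases hs3 with h' | h'
  · exact core d₁ d₂ hd₂ hna2 hd₁y hd₂y hs1 hs2 h'
  · exact core d₂ d₁ hd₁ hna1 hd₂y hd₁y hs2 hs1 h'

end Main

/-- Frankl's inequality for a finite upper semimodular lattice `L` with a left modular element
`s ≠ 1` such that every element that is an irredundant join of three elements of `[s, 1]` and a
join-irreducible `d` whose lower cover is not below `s` covers at most four elements. -/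
theorem result (L : Type*) [Lattice L] [BoundedOrder L] [Finite L] [IsUpperModularLattice L]
    (s : L) (hs : s ≠ ⊤) (hmod : ∀ x z : L, x ≤ z → (x ⊔ s) ⊓ z = x ⊔ (s ⊓ z))
    (h : ∀ p q r d : L, s ≤ p → s ≤ q → s ≤ r → SupIrred d → (∀ f : L, f ⋖ d → ¬ f ≤ s) →
      p ≤ q ⊔ r ⊔ d ∨ q ≤ p ⊔ r ⊔ d ∨ r ≤ p ⊔ q ⊔ d ∨ d ≤ p ⊔ q ⊔ r ∨
      {x : L | x ⋖ p ⊔ q ⊔ r ⊔ d}.ncard ≤ 4) :
    ∃ a : L, SupIrred a ∧ ¬ a ≤ s ∧ 2 * Nat.card {x : L // a ≤ x} ≤ Nat.card L := by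
  classical
  have := Fintype.ofFinite L
  obtain ⟨a, b, ⟨ha, has⟩, ⟨hb, hbs⟩, hkey⟩ : ∃ a b : L, (SupIrred a ∧ ¬ a ≤ s) ∧
      (SupIrred b ∧ ¬ b ≤ s) ∧
      ∀ y : L, a ⊔ b ≤ y → ∃ e : L, ¬ a ≤ e ∧ ¬ b ≤ e ∧ a ⊔ b ⊔ e = y := by
    by_cases hbot : ∀ a : L, SupIrred a → a ⊔ s ≠ ⊤
    · obtain ⟨c, ⟨hsc, hc⟩, hmax⟩ :=
        (Set.toFinite {c : L | s ≤ c ∧ ∀ a : L, SupIrred a → a ⊔ c ≠ ⊤}).exists_maximal
          ⟨s, le_rfl, hbot⟩
      have hst : ¬ (⊤ : L) ≤ s := fun h1 => hs (top_le_iff.1 h1)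
      have hct : ¬ (⊤ : L) ≤ c := by
        intro hct
        obtain ⟨d, hd, _, _⟩ := exists_supIrred_le hst
        exact hc d hd (top_le_iff.mp (hct.trans le_sup_right))
      obtain ⟨b, hb, _, hbc⟩ := exists_supIrred_le hct
      have h0 : ∃ a b : L, SupIrred a ∧ SupIrred b ∧ a ⊔ b ⊔ c = ⊤ := by
        by_contra hcon
        push Not at hcon
        have h1 : b ⊔ c ≤ c := hmax ⟨hsc.trans le_sup_right, fun a ha => by
          rw [← sup_assoc]; exact hcon a b ha hb⟩ le_sup_right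
        exact hbc (le_sup_left.trans h1)
      exact exists_pair_four s hmod h c hsc hc h0
    · push Not at hbot
      obtain ⟨a, ha, hat⟩ := hbot
      have has : ¬ a ≤ s := fun h1 => hs (by rw [← hat]; exact (sup_eq_right.2 h1).symm)
      refine ⟨a, a, ⟨ha, has⟩, ⟨ha, has⟩, fun y hy => ⟨s ⊓ y, fun h1 => has (h1.trans inf_le_left),
        fun h1 => has (h1.trans inf_le_left), ?_⟩⟩
      rw [sup_idem] at hy ⊢
      rw [← hmod a y hy, hat, top_inf_eq]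
  have hup : ∀ m : L, Nat.card {x : L // m ≤ x} = up m := by
    intro m
    rw [Nat.card_eq_fintype_card, Fintype.card_subtype]
    unfold up
    congr
  have h1 := up_add_up_of_key a b hkey
  simp_rw [hup, Nat.card_eq_fintype_card]
  rcases le_total (up a) (up b) with h2 | h2
  · exact ⟨a, ha, has, by omega⟩
  · exact ⟨b, hb, hbs, by omega⟩

end Pool.Agent.Results.MP_e8229a_co.FourCovers
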