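import Pool.Agent.H38.BR.Count

set_option autoImplicit false

/-!
# Frankl's inequality up to a small error for finite lattices whose breadth is small against `log N`

Let `L` be a finite lattice (semimodular or not) with `N` elements in which every join of maximal
join-irreducibles is the join of at most `b` of them (for instance breadth at most `b`), and `k ≥ 1`
an integer with `b (1 + log k) < log N`.  Then some maximal join-irreducible `a` satisfies
`|[a, 1]| ≤ (1 / k + log N / (2 (log N - b (1 + log k)))) N`.

Proof.
* Seeds (`hs`, `card_values`).  A seed `S` is a sequence of `n = k b` maximal join-irreducibles,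
  `h_S(x)` is the join of those members of `S` which are below `x`; it is below `x` and takes at most
  `∑_{i ≤ b} C(n, i) ≤ (e k) ^ b` values.
* Leave one out (`Pool.Agent.H24.Loo.loo`).  If `s_0, ..., s_n` are independent with the same law,
  the `s_i` which are below `y`, but not below the join of the other `s_l` below `y`, are
  join-irredundant, so at most `b`.  Hence a further independent sample `m` is below `y`, but not
  below `h_S(y)`, with probability at most `b / (n + 1) < 1 / k`.
* Minimax (`exists_mixed`).  So there is a law `σ` of seeds such that for every maximal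
  join-irreducible `m` the probability of `m ≤ y`, `¬ m ≤ h_S(y)` for random `S` and uniform `y` is
  less than `1 / k`.
* Weights for two seeds (`exists_w2`).  For every seed `S` and class `{x : h_S(x) = c}` there are
  weights `w m ≥ 0` with sum `log |class|` such that the weight of every set `A` of coordinates is at
  most the logarithm of the number of families `(x ⊓ m)_{m ∈ A}`, `x` in the class.  As `x ⊓ y`
  determines `x ⊓ m` for `m ≤ h_{S'}(y)` and `y ⊓ m` for `m ≤ h_S(x)`, the weight of
  `{m ≤ h_{S'}(y)}` for `x, S` plus the weight of `{m ≤ h_S(x)}` for `y, S'` is at most `log N`.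
* Double count (`two`) over independent `S, S'` with law `σ` and all `x, y`.
-/

namespace Pool.Agent.Results.MP_e8229a_co.SmallBreadth

theorem result {L : Type*} [Lattice L] [BoundedOrder L] [Finite L] (b k : ℕ) (hk : 1 ≤ k)
    (hb : ∀ S : Finset L, (∀ a ∈ S, Maximal SupIrred a) →
      ∃ T ⊆ S, T.card ≤ b ∧ T.sup id = S.sup id)
    (hN : b * (1 + Real.log k) < Real.log (Nat.card L)) :
    ∃ a : L, Maximal SupIrred a ∧ (Nat.card {x : L // a ≤ x} : ℝ) ≤
      (1 / k + Real.log (Nat.card L) /
        (2 * (Real.log (Nat.card L) - b * (1 + Real.log k)))) * Nat.card L := by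
  classical
  have := Fintype.ofFinite L
  rw [Nat.card_eq_fintype_card] at hN ⊢
  obtain ⟨a, ha, hu⟩ := Pool.Agent.H38.BR.main b k hk
    (Finset.univ.filter (fun a : L => Maximal SupIrred a))
    (fun a ha => by
      obtain ⟨c, hac, hc⟩ := (Set.toFinite {x : L | SupIrred x}).exists_le_maximal ha
      exact ⟨c, Finset.mem_filter.2 ⟨Finset.mem_univ _, hc⟩, hac⟩)
    (fun S hS => hb S fun a ha => (Finset.mem_filter.1 (hS ha)).2) hN
  refine ⟨a, (Finset.mem_filter.1 ha).2, ?_⟩
  rw [Nat.card_eq_fintype_card, Fintype.card_subtype]
  simpa using hu

end Pool.Agent.Results.MP_e8229a_co.SmallBreadth
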