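import Mathlib

set_option autoImplicit false

/-!
# Frankl's inequality for semimodular lattices, two steps above an element

Let `L` be a finite upper semimodular lattice and `s : L`, not the greatest element. For a
join-irreducible `p` let `p_*` be its lower cover. Assume

* (1) for every join-irreducible `p`: `p_* ≤ s` or `s ⋖ s ⊔ p_*`;
* (2) for every join-irreducible `p` with `¬ p_* ≤ s` and every `y ≥ p_*`: `p ≤ y ⊔ s → p ≤ y`.

Then some join-irreducible `a` with `¬ a ≤ s` satisfies `2 |{x : a ≤ x}| ≤ |L|`.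

## The proof

Let `T` be the set of all join-irreducibles `b` with `¬ b_* ≤ s`; by (1) and (2) no element of `T`
lies below another join-irreducible (`below_tops`).
* (C1) `2 |{x : b ≤ x}| + |{x : ¬ b_* ≤ x}| ≤ |L| + |Bad b|`, where `Bad b` is the set of all
  `x ≥ b` such that every `y ⋖ x` with `b_* ≤ y` is above `b`.
* For `x : L` let `base x` be the join of the join-irreducibles outside `T` below `x`, and `I x` the
  set of all `b ∈ T` below `x` which are not below the join of `base x` and the earlier elements of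
  `T` below `x`.
* `z ∈ Bad b` implies `b ≤ b_* ⊔ s ⊔ sup {c_* : c ∈ I z}` (`le_of_bad`).
* (C2) for all `x` and `z`, `#{b ∈ I x : z ∈ Bad b} ≤ #{c ∈ I z : ¬ c_* ≤ x}`: the elements on the
  left are independent over `base x ⊔ s` by (2), they are below the join of `base x ⊔ s` and of the
  `c_*` on the right, and by (1) every `c_*` raises an element above `s` by at most one step.
* Summing (C2) over all pairs gives some `b ∈ T` with `|Bad b| ≤ |{x : ¬ b_* ≤ x}|`.
-/


namespace Pool.Agent.Results.MP_e8229a_co.TwoSteps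

open Finset

variable {L : Type*} [Lattice L] [Fintype L]

set_option linter.unusedSectionVars false

/-- If `z` is not below `w`, some join-irreducible below `z` is not below `w`, and all elements
strictly below it are below `w`. -/
lemma exists_min {z w : L} (h : ¬ z ≤ w) :
    ∃ c : L, SupIrred c ∧ c ≤ z ∧ ¬ c ≤ w ∧ ∀ e : L, e < c → e ≤ w := by
  classical
  obtain ⟨c, hc⟩ := (Set.toFinite {c : L | c ≤ z ∧ ¬ c ≤ w}).exists_minimal ⟨z, le_rfl, h⟩
  have key : ∀ e : L, e < c → e ≤ w := by
    intro e he
    by_contra hew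
    exact absurd (hc.le_of_le ⟨he.le.trans hc.prop.1, hew⟩ he.le) (not_le_of_gt he)
  refine ⟨c, ⟨?_, ?_⟩, hc.prop.1, hc.prop.2, key⟩
  · intro hmin
    exact hc.prop.2 ((hmin inf_le_left).trans inf_le_right)
  · intro b d hbd
    by_contra hne
    push Not at hne
    have hb : b < c := lt_of_le_of_ne (hbd ▸ le_sup_left) hne.1
    have hd : d < c := lt_of_le_of_ne (hbd ▸ le_sup_right) hne.2
    exact hc.prop.2 (hbd ▸ sup_le (key b hb) (key d hd))

/-- An element all of whose strict minorants are below `y` gives a cover of `y`. -/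
lemma covBy_sup [IsUpperModularLattice L] {c y : L} (hlow : ∀ z : L, z < c → z ≤ y)
    (hcy : ¬ c ≤ y) : y ⋖ c ⊔ y := by
  have hcov : c ⊓ y ⋖ c := by
    refine ⟨lt_of_le_of_ne inf_le_left (fun h => hcy (h ▸ inf_le_right)), ?_⟩
    intro z h1 h2
    exact absurd (le_inf h2.le (hlow z h2)) (not_le_of_gt h1)
  exact covBy_sup_of_inf_covBy_left hcov

section Order

variable [OrderBot L]

/-- Exchange: elements which are independent over `f` and below the join of `f` and `k` elements,
each of which raises every element above `s` by at most one step, are at most `k` in number. -/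
lemma exchange (s : L) (e : L → ℕ) (he : Function.Injective e) (B : Finset L)
    (hB : ∀ a ∈ B, ∀ h : L, s ≤ h → a ≤ h ∨ h ⋖ a ⊔ h) :
    ∀ (A : Finset L) (f : L), s ≤ f →
      (∀ b ∈ A, b ≤ f ⊔ B.sup id) →
      (∀ b ∈ A, ¬ b ≤ f ⊔ (A.filter (fun c => e c < e b)).sup id) → A.card ≤ B.card := by
  classical
  induction B using Finset.induction_on with
  | empty =>
    intro A f _ h1 h2
    rw [Finset.card_empty, Nat.le_zero, Finset.card_eq_zero]
    by_contra hne
    obtain ⟨b, hb⟩ := Finset.nonempty_iff_ne_empty.2 hne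
    refine h2 b hb ((h1 b hb).trans ?_)
    simp
  | insert a B haB ih =>
    intro A f hsf h1 h2
    have ih' := ih (fun c hc => hB c (Finset.mem_insert_of_mem hc))
    -- the elements which stay independent over `f ⊔ a`
    set A' := A.filter (fun b => ¬ b ≤ (f ⊔ a) ⊔ (A.filter (fun c => e c < e b)).sup id) with hA'
    have hA'card : A'.card ≤ B.card := by
      refine ih' A' (f ⊔ a) (hsf.trans le_sup_left) ?_ ?_
      · intro b hb
        have := h1 b (Finset.mem_of_mem_filter b hb)
        rw [Finset.sup_insert, id, ← sup_assoc] at this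
        exact this
      · intro b hb hle
        have h3 := (Finset.mem_filter.1 hb).2
        refine h3 (hle.trans (sup_le_sup_left ?_ _))
        refine Finset.sup_mono ?_
        intro c hc
        rw [Finset.mem_filter] at hc ⊢
        exact ⟨Finset.mem_of_mem_filter c hc.1, hc.2⟩
    have hdiff : (A \ A').card ≤ 1 := by
      rw [Finset.card_le_one]
      -- two dropped elements are equal
      have key : ∀ b₁ ∈ A \ A', ∀ b₂ ∈ A \ A', ¬ e b₁ < e b₂ := by
        intro b₁ hb₁ b₂ hb₂ hlt
        rw [Finset.mem_sdiff, hA', Finset.mem_filter, not_and, not_not] at hb₁ hb₂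
        have k₁ := hb₁.2 hb₁.1
        have k₂ := hb₂.2 hb₂.1
        set h₁ := f ⊔ (A.filter (fun c => e c < e b₁)).sup id with hh₁
        set h₂ := f ⊔ (A.filter (fun c => e c < e b₂)).sup id with hh₂
        have n₁ : ¬ b₁ ≤ h₁ := h2 b₁ hb₁.1
        have n₂ : ¬ b₂ ≤ h₂ := h2 b₂ hb₂.1
        have k₁' : b₁ ≤ a ⊔ h₁ := by
          refine k₁.trans (le_of_eq ?_)
          rw [hh₁, sup_right_comm, sup_comm]
        have k₂' : b₂ ≤ a ⊔ h₂ := by
          refine k₂.trans (le_of_eq ?_)
          rw [hh₂, sup_right_comm, sup_comm]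
        have hsub : h₁ ≤ h₂ := by
          refine sup_le_sup_left (Finset.sup_mono ?_) _
          intro c hc
          rw [Finset.mem_filter] at hc ⊢
          exact ⟨hc.1, hc.2.trans hlt⟩
        have hb₁h₂ : b₁ ≤ h₂ := by
          refine le_trans ?_ le_sup_right
          exact Finset.le_sup (f := id) (Finset.mem_filter.2 ⟨hb₁.1, hlt⟩)
        have hah₂ : a ≤ h₂ := by
          rcases hB a (Finset.mem_insert_self a B) h₁ (hsf.trans le_sup_left) with h | h
          · exact absurd (k₁'.trans (sup_le h le_rfl)) n₁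
          · rcases h.eq_or_eq (c := b₁ ⊔ h₁) le_sup_right (sup_le k₁' le_sup_right) with h' | h'
            · exact absurd (le_sup_left.trans h'.le) n₁
            · have : a ≤ b₁ ⊔ h₁ := by rw [h']; exact le_sup_left
              exact this.trans (sup_le hb₁h₂ hsub)
        exact n₂ (k₂'.trans (sup_le hah₂ le_rfl))
      intro b₁ hb₁ b₂ hb₂
      rcases lt_trichotomy (e b₁) (e b₂) with h | h | h
      · exact absurd h (key b₁ hb₁ b₂ hb₂)
      · exact he h
      · exact absurd h (key b₂ hb₂ b₁ hb₁)
    rw [Finset.card_insert_of_notMem haB]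
    have hsub : A' ⊆ A := Finset.filter_subset _ _
    have := Finset.card_sdiff_add_card_eq_card hsub
    omega

open Classical in
/-- The join of all elements strictly below `p`. -/
noncomputable def low (p : L) : L := (Finset.univ.filter (fun z : L => z < p)).sup id

open Classical in
lemma le_low {p z : L} (h : z < p) : z ≤ low p :=
  Finset.le_sup (f := id) (Finset.mem_filter.2 ⟨Finset.mem_univ _, h⟩)

open Classical in
lemma low_lt {p : L} (hp : SupIrred p) : low p < p := by
  refine lt_of_le_of_ne (Finset.sup_le fun z hz => (Finset.mem_filter.1 hz).2.le) (fun h => ?_)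
  obtain ⟨z, hz, h1⟩ := hp.finset_sup_eq h
  exact (Finset.mem_filter.1 hz).2.ne h1

lemma low_covBy {p : L} (hp : SupIrred p) : low p ⋖ p :=
  ⟨low_lt hp, fun _ h1 h2 => absurd (le_low h2) (not_le_of_gt h1)⟩

open Classical in
/-- The join-irreducibles whose lower cover is not below `s`. -/
noncomputable def tops (s : L) : Finset L :=
  Finset.univ.filter (fun b => SupIrred b ∧ ¬ low b ≤ s)

open Classical in
/-- The join of the join-irreducibles below `x` whose lower cover is below `s`. -/
noncomputable def base (s x : L) : L :=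
  (Finset.univ.filter (fun a : L => SupIrred a ∧ low a ≤ s ∧ a ≤ x)).sup id

open Classical in
/-- The greedy basis of the elements of `tops s` below `x`, over `base s x`. -/
noncomputable def indep (s : L) (e : L → ℕ) (x : L) : Finset L :=
  (tops s).filter (fun b => b ≤ x ∧
    ¬ b ≤ base s x ⊔ ((tops s).filter (fun c => c ≤ x ∧ e c < e b)).sup id)

open Classical in
/-- The elements `x ≥ b` at which `b` cannot be removed. -/
noncomputable def bad (b : L) : Finset L :=
  Finset.univ.filter (fun x => b ≤ x ∧ ∀ y : L, y ⋖ x → low b ≤ y → b ≤ y)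

open Classical in
lemma mem_tops {s b : L} : b ∈ tops s ↔ SupIrred b ∧ ¬ low b ≤ s := by
  rw [tops, Finset.mem_filter]
  exact ⟨fun h => h.2, fun h => ⟨Finset.mem_univ _, h⟩⟩

open Classical in
lemma base_le (s x : L) : base s x ≤ x :=
  Finset.sup_le fun _ ha => (Finset.mem_filter.1 ha).2.2.2

open Classical in
lemma le_base {s a x : L} (ha : SupIrred a) (hl : low a ≤ s) (hax : a ≤ x) : a ≤ base s x :=
  Finset.le_sup (f := id) (Finset.mem_filter.2 ⟨Finset.mem_univ _, ha, hl, hax⟩)

/-- The hypotheses on `s`. -/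
structure Hyp (s : L) : Prop where
  one : ∀ p : L, SupIrred p → low p ≤ s ∨ s ⋖ s ⊔ low p
  two : ∀ p : L, SupIrred p → ¬ low p ≤ s → ∀ y : L, low p ≤ y → p ≤ y ⊔ s → p ≤ y

/-- The elements strictly below an element of `tops s` are joins of join-irreducibles outside
`tops s`. -/
lemma below_tops {s : L} (H : Hyp s) {b q : L} (hb : b ∈ tops s) (hq : SupIrred q) (hqb : q < b) :
    low q ≤ s := by
  obtain ⟨hb1, hb2⟩ := mem_tops.1 hb
  by_contra hn
  have h1 : ¬ q ≤ low q ⊔ s := fun h => absurd (H.two q hq hn (low q) le_rfl h) (not_le_of_gt (low_lt hq))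
  have h2 : s ⋖ s ⊔ low b := (H.one b hb1).resolve_left hb2
  have h3 : s < s ⊔ low q := lt_of_le_of_ne le_sup_left (fun h => hn (h ▸ le_sup_right))
  have h4 : s ⊔ low q < s ⊔ low b := by
    refine lt_of_le_of_ne (sup_le_sup_left ((low_lt hq).le.trans (le_low hqb)) _) (fun h => h1 ?_)
    rw [sup_comm (low q) s, h]
    exact (le_low hqb).trans le_sup_right
  exact h2.2 h3 h4

lemma low_le_base {s : L} (H : Hyp s) {c x : L} (hc : c ∈ tops s) (hx : low c ≤ x) :
    low c ≤ base s x := by
  by_contra hn
  obtain ⟨q, hq, hql, hqn, -⟩ := exists_min hn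
  exact hqn (le_base hq (below_tops H hc hq (lt_of_le_of_lt hql (low_lt (mem_tops.1 hc).1)))
    (hql.trans hx))

/-- The element `x` is generated by `base s x` and by `indep s e x`. -/
lemma le_gen (s : L) (e : L → ℕ) (x : L) : x ≤ base s x ⊔ (indep s e x).sup id := by
  classical
  have key : ∀ n : ℕ, ∀ b ∈ tops s, b ≤ x → e b = n → b ≤ base s x ⊔ (indep s e x).sup id := by
    intro n
    induction n using Nat.strong_induction_on with
    | _ n ih =>
      intro b hb hbx hn
      by_cases hi : b ∈ indep s e x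
      · exact (Finset.le_sup (f := id) hi).trans le_sup_right
      · rw [indep, Finset.mem_filter, not_and, not_and, not_not] at hi
        refine (hi hb hbx).trans (sup_le le_sup_left (Finset.sup_le fun c hc => ?_))
        rw [Finset.mem_filter] at hc
        exact ih (e c) (hn ▸ hc.2.2) c hc.1 hc.2.1 rfl
  by_contra hx
  obtain ⟨c, hc, hcx, hcn, -⟩ := exists_min hx
  by_cases ha : low c ≤ s
  · exact hcn ((le_base hc ha hcx).trans le_sup_left)
  · exact hcn (key (e c) c (mem_tops.2 ⟨hc, ha⟩) hcx rfl)

open Classical in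
/-- (C2), first half. -/
lemma le_of_bad [IsUpperModularLattice L] {s : L} (e : L → ℕ) {b z : L}
    (hb : b ∈ tops s) (hz : z ∈ bad b) :
    b ≤ (low b ⊔ s) ⊔ ((indep s e z).image low).sup id := by
  obtain ⟨-, hbz, hbad⟩ := Finset.mem_filter.1 hz
  by_contra hw
  set w := (low b ⊔ s) ⊔ ((indep s e z).image low).sup id with hwdef
  set v := w ⊓ z with hvdef
  have hv : ¬ b ≤ v := fun h => hw (h.trans inf_le_left)
  have hvz : v ≤ z := inf_le_right
  obtain ⟨y, hy⟩ := (Set.toFinite {y : L | v ≤ y ∧ y ≤ z ∧ ¬ b ≤ y}).exists_maximal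
    ⟨v, le_rfl, hvz, hv⟩
  obtain ⟨⟨hy1, hy2, hy3⟩, hymax⟩ := hy
  have hbs : SupIrred b := (mem_tops.1 hb).1
  have hlow : low b ≤ y :=
    (le_inf (le_sup_left.trans le_sup_left) ((low_lt hbs).le.trans hbz)).trans hy1
  have hbcov : y ⋖ b ⊔ y := covBy_sup (fun w hw => (le_low hw).trans hlow) hy3
  -- a generator of `z` not below `b ⊔ y` would contradict the maximality
  have hgen : ∀ c : L, (∀ w : L, w < c → w ≤ y) → c ≤ z → c ≤ b ⊔ y := by
    intro c hlow hcz
    by_contra hcn
    have hcy : ¬ c ≤ y := fun h => hcn (h.trans le_sup_right)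
    have hccov : y ⋖ c ⊔ y := covBy_sup hlow hcy
    have hbc : b ≤ c ⊔ y := by
      by_contra hbc
      have h3 := hymax (show c ⊔ y ∈ {y : L | v ≤ y ∧ y ≤ z ∧ ¬ b ≤ y} from
        ⟨hy1.trans le_sup_right, sup_le hcz hy2, hbc⟩) le_sup_right
      exact hcy (le_sup_left.trans h3)
    have h4 : b ⊔ y = c ⊔ y := by
      rcases hccov.eq_or_eq hbcov.le (sup_le hbc le_sup_right) with h | h
      · exact absurd (h ▸ le_sup_left) hy3
      · exact h
    exact hcn (h4 ▸ le_sup_left)
  have hzy : z ≤ b ⊔ y := by
    refine (le_gen s e z).trans (sup_le (Finset.sup_le fun a ha => ?_)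
      (Finset.sup_le fun c hc => ?_))
    · obtain ⟨-, ha1, ha2, ha3⟩ := Finset.mem_filter.1 ha
      refine hgen a (fun u hu => ?_) ha3
      refine (le_inf ?_ (hu.le.trans ha3)).trans hy1
      exact ((le_low hu).trans ha2).trans (le_sup_right.trans le_sup_left)
    · have hc' := hc
      rw [indep, Finset.mem_filter] at hc'
      refine hgen c (fun u hu => ?_) hc'.2.1
      refine (le_inf ?_ (hu.le.trans hc'.2.1)).trans hy1
      exact (le_low hu).trans
        ((Finset.le_sup (f := id) (Finset.mem_image_of_mem low hc)).trans le_sup_right)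
  have hz' : z = b ⊔ y := le_antisymm hzy (sup_le hbz hy2)
  rw [hz'] at hbad
  exact hy3 (hbad y hbcov hlow)

open Classical in
/-- (C2). -/
lemma pair_ineq [IsUpperModularLattice L] {s : L} (H : Hyp s) (e : L → ℕ)
    (he : Function.Injective e) (x z : L) :
    ((indep s e x).filter (fun b => z ∈ bad b)).card ≤
      ((indep s e z).filter (fun c => ¬ low c ≤ x)).card := by
  set A := (indep s e x).filter (fun b => z ∈ bad b) with hA
  set C := (indep s e z).filter (fun c => ¬ low c ≤ x) with hC
  refine le_trans ?_ (Finset.card_image_le (s := C) (f := low))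
  refine exchange s e he (C.image low) ?_ A (base s x ⊔ s) le_sup_right ?_ ?_
  · intro a ha h hsh
    obtain ⟨c, hc, rfl⟩ := Finset.mem_image.1 ha
    have hc' := (Finset.mem_filter.1 hc).1
    rw [indep, Finset.mem_filter] at hc'
    obtain ⟨hc1, hc2⟩ := mem_tops.1 hc'.1
    by_cases hle : low c ≤ h
    · exact Or.inl hle
    · refine Or.inr ?_
      have h1 : s ⋖ s ⊔ low c := (H.one c hc1).resolve_left hc2
      have h2 : (s ⊔ low c) ⊓ h ⋖ s ⊔ low c := by
        rcases h1.eq_or_eq (le_inf le_sup_left hsh) inf_le_left with h3 | h3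
        · rw [h3]
          exact h1
        · exact absurd ((le_sup_right.trans h3.ge).trans inf_le_right) hle
      have h3 := covBy_sup_of_inf_covBy_left h2
      have h4 : (s ⊔ low c) ⊔ h = low c ⊔ h := by
        refine le_antisymm (sup_le (sup_le (hsh.trans le_sup_right) le_sup_left) le_sup_right) ?_
        exact sup_le (le_sup_right.trans le_sup_left) le_sup_right
      rwa [h4] at h3
  · intro b hb
    obtain ⟨hb1, hb2⟩ := Finset.mem_filter.1 hb
    have hb1' := hb1
    rw [indep, Finset.mem_filter] at hb1'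
    refine (le_of_bad e hb1'.1 hb2).trans (sup_le (sup_le ?_ ?_) (Finset.sup_le fun d hd => ?_))
    · exact (low_le_base H hb1'.1 ((low_lt (mem_tops.1 hb1'.1).1).le.trans hb1'.2.1)).trans
        (le_sup_left.trans le_sup_left)
    · exact le_sup_right.trans le_sup_left
    · obtain ⟨c, hc, rfl⟩ := Finset.mem_image.1 hd
      have hc' := hc
      rw [indep, Finset.mem_filter] at hc'
      by_cases hcx : low c ≤ x
      · exact (low_le_base H hc'.1 hcx).trans (le_sup_left.trans le_sup_left)
      · exact (Finset.le_sup (f := id) (Finset.mem_image_of_mem low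
          (Finset.mem_filter.2 ⟨hc, hcx⟩))).trans le_sup_right
  · intro b hb hle
    obtain ⟨hb1, -⟩ := Finset.mem_filter.1 hb
    rw [indep, Finset.mem_filter] at hb1
    obtain ⟨hb3, hb4⟩ := mem_tops.1 hb1.1
    refine hb1.2.2 (H.two b hb3 hb4 _ ?_ (hle.trans ?_))
    · exact (low_le_base H hb1.1 ((low_lt hb3).le.trans hb1.2.1)).trans le_sup_left
    · rw [sup_right_comm]
      refine sup_le_sup_right (sup_le_sup_left (Finset.sup_mono ?_) _) _
      intro c hc
      obtain ⟨hc1, hc2⟩ := Finset.mem_filter.1 hc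
      have hc3 := (Finset.mem_filter.1 hc1).1
      rw [indep, Finset.mem_filter] at hc3
      exact Finset.mem_filter.2 ⟨hc3.1, hc3.2.1, hc2⟩

open Classical in
/-- (C1). -/
lemma count_ineq {b : L} (hsb : low b < b) :
    2 * (Finset.univ.filter (fun x : L => b ≤ x)).card +
      (Finset.univ.filter (fun x : L => ¬ low b ≤ x)).card ≤
      Fintype.card L + (bad b).card := by
  -- the good elements
  set U := Finset.univ.filter (fun x : L => b ≤ x) with hU
  set N := Finset.univ.filter (fun x : L => ¬ low b ≤ x) with hN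
  have hbadU : bad b ⊆ U := by
    intro x hx
    exact Finset.mem_filter.2 ⟨Finset.mem_univ _, (Finset.mem_filter.1 hx).2.1⟩
  have hgood : ∀ x ∈ U \ bad b, ∃ y : L, y ⋖ x ∧ low b ≤ y ∧ ¬ b ≤ y := by
    intro x hx
    by_contra hne
    push Not at hne
    have hx1 := Finset.mem_sdiff.1 hx
    exact hx1.2 (Finset.mem_filter.2 ⟨Finset.mem_univ _, (Finset.mem_filter.1 hx1.1).2, hne⟩)
  choose! g hg using hgood
  have hinj : Set.InjOn g (U \ bad b : Finset L) := by
    intro x hx x' hx' hxx
    rw [Finset.mem_coe] at hx hx'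
    have h1 := hg x hx
    have h2 := hg x' hx'
    have h3 : ∀ w ∈ U \ bad b, w = b ⊔ g w := by
      intro w hw
      have hw1 := hg w hw
      have hbw : b ≤ w := (Finset.mem_filter.1 (Finset.mem_sdiff.1 hw).1).2
      rcases hw1.1.eq_or_eq (c := b ⊔ g w) le_sup_right (sup_le hbw hw1.1.le) with h | h
      · exact absurd (h ▸ le_sup_left) hw1.2.2
      · exact h.symm
    rw [h3 x hx, h3 x' hx', hxx]
  have hmaps : ∀ x ∈ U \ bad b, g x ∈ (Finset.univ \ U) \ N := by
    intro x hx
    have h1 := hg x hx
    exact Finset.mem_sdiff.2 ⟨Finset.mem_sdiff.2 ⟨Finset.mem_univ _,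
      fun h => h1.2.2 (Finset.mem_filter.1 h).2⟩, fun h => (Finset.mem_filter.1 h).2 h1.2.1⟩
  have hcard := Finset.card_le_card_of_injOn g hmaps hinj
  have hNU : N ⊆ Finset.univ \ U := by
    intro x hx
    exact Finset.mem_sdiff.2 ⟨Finset.mem_univ _,
      fun h => (Finset.mem_filter.1 hx).2 (hsb.le.trans (Finset.mem_filter.1 h).2)⟩
  have c1 := Finset.card_sdiff_add_card_eq_card hbadU
  have c2 := Finset.card_sdiff_add_card_eq_card hNU
  have c3 := Finset.card_sdiff_add_card_eq_card (Finset.subset_univ U)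
  rw [Finset.card_univ] at c3
  omega

open Classical in
/-- The main step, when `tops s` is not empty. -/
lemma main_tops [IsUpperModularLattice L] {s : L} (H : Hyp s) (hT : (tops s).Nonempty) :
    ∃ a : L, SupIrred a ∧ ¬ a ≤ s ∧
      2 * (Finset.univ.filter (fun x : L => a ≤ x)).card ≤ Fintype.card L := by
  obtain ⟨e, he⟩ : ∃ e : L → ℕ, Function.Injective e :=
    ⟨fun x => (Fintype.equivFin L x : ℕ), fun x y hxy => (Fintype.equivFin L).injective (Fin.ext hxy)⟩
  -- it is enough to find `b` with `|bad b| ≤ |N b|`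
  suffices hmain : ∃ b ∈ tops s, (bad b).card ≤
      (Finset.univ.filter (fun x : L => ¬ low b ≤ x)).card by
    obtain ⟨b, hb, hle⟩ := hmain
    obtain ⟨hb1, hb2⟩ := mem_tops.1 hb
    refine ⟨b, hb1, fun h => hb2 ((low_lt hb1).le.trans h), ?_⟩
    have := count_ineq (low_lt hb1)
    omega
  by_contra hne
  push Not at hne
  set q : L → ℕ := fun b => (Finset.univ.filter (fun x : L => b ∈ indep s e x)).card with hq
  have hle : ∑ b ∈ tops s, q b * (bad b).card ≤
      ∑ b ∈ tops s, q b * (Finset.univ.filter (fun x : L => ¬ low b ≤ x)).card := by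
    have e1 : ∑ b ∈ tops s, q b * (bad b).card =
        ∑ x : L, ∑ z : L, ((indep s e x).filter (fun b => z ∈ bad b)).card := by
      have : ∀ x z : L, ((indep s e x).filter (fun b => z ∈ bad b)).card =
          ∑ b ∈ tops s, if (b ∈ indep s e x ∧ z ∈ bad b) then 1 else 0 := by
        intro x z
        rw [Finset.card_filter, ← Finset.sum_filter_add_sum_filter_not (tops s) (fun b => b ∈ indep s e x)]
        have hf : (tops s).filter (fun b => b ∈ indep s e x) = indep s e x := by
          ext b
          rw [Finset.mem_filter]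
          exact ⟨fun h => h.2, fun h => ⟨(Finset.mem_filter.1 h).1, h⟩⟩
        rw [hf]
        have h0 : ∑ b ∈ (tops s).filter (fun b => ¬ b ∈ indep s e x),
            (if (b ∈ indep s e x ∧ z ∈ bad b) then 1 else 0) = 0 := by
          refine Finset.sum_eq_zero fun b hb => ?_
          rw [if_neg]
          exact fun h => (Finset.mem_filter.1 hb).2 h.1
        rw [h0, add_zero]
        refine Finset.sum_congr rfl fun b hb => ?_
        simp [hb]
      simp_rw [this]
      rw [Finset.sum_congr rfl (fun x _ => Finset.sum_comm), Finset.sum_comm]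
      refine Finset.sum_congr rfl fun b _ => ?_
      rw [hq]
      simp only
      rw [Finset.card_filter, Finset.sum_mul]
      refine Finset.sum_congr rfl fun x _ => ?_
      by_cases hx : b ∈ indep s e x
      · simp only [hx, true_and, if_true, one_mul]
        rw [Finset.sum_ite_mem]
        simp
      · simp [hx]
    have e2 : ∑ b ∈ tops s, q b * (Finset.univ.filter (fun x : L => ¬ low b ≤ x)).card =
        ∑ x : L, ∑ z : L, ((indep s e z).filter (fun b => ¬ low b ≤ x)).card := by
      have : ∀ x z : L, ((indep s e z).filter (fun b => ¬ low b ≤ x)).card =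
          ∑ b ∈ tops s, if (b ∈ indep s e z ∧ ¬ low b ≤ x) then 1 else 0 := by
        intro x z
        rw [Finset.card_filter, ← Finset.sum_filter_add_sum_filter_not (tops s) (fun b => b ∈ indep s e z)]
        have hf : (tops s).filter (fun b => b ∈ indep s e z) = indep s e z := by
          ext b
          rw [Finset.mem_filter]
          exact ⟨fun h => h.2, fun h => ⟨(Finset.mem_filter.1 h).1, h⟩⟩
        rw [hf]
        have h0 : ∑ b ∈ (tops s).filter (fun b => ¬ b ∈ indep s e z),
            (if (b ∈ indep s e z ∧ ¬ low b ≤ x) then 1 else 0) = 0 := by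
          refine Finset.sum_eq_zero fun b hb => ?_
          rw [if_neg]
          exact fun h => (Finset.mem_filter.1 hb).2 h.1
        rw [h0, add_zero]
        refine Finset.sum_congr rfl fun b hb => ?_
        simp [hb]
      simp_rw [this]
      rw [Finset.sum_comm, Finset.sum_congr rfl (fun x _ => Finset.sum_comm), Finset.sum_comm]
      refine Finset.sum_congr rfl fun b _ => ?_
      rw [hq]
      simp only
      rw [Finset.card_filter, Finset.sum_mul]
      refine Finset.sum_congr rfl fun x _ => ?_
      by_cases hx : b ∈ indep s e x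
      · simp only [hx, true_and, if_true, one_mul]
        rw [Finset.card_filter]
      · simp [hx]
    rw [e1, e2]
    exact Finset.sum_le_sum fun x _ => Finset.sum_le_sum fun z _ => pair_ineq H e he x z
  have hlt : ∑ b ∈ tops s, q b * (Finset.univ.filter (fun x : L => ¬ low b ≤ x)).card <
      ∑ b ∈ tops s, q b * (bad b).card := by
    refine Finset.sum_lt_sum_of_nonempty hT fun b hb => ?_
    refine Nat.mul_lt_mul_of_pos_left (hne b hb) ?_
    rw [hq]
    simp only
    refine Finset.card_pos.2 ⟨b, Finset.mem_filter.2 ⟨Finset.mem_univ _, ?_⟩⟩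
    refine Finset.mem_filter.2 ⟨hb, le_rfl, fun hle => ?_⟩
    obtain ⟨hb1, hb2⟩ := mem_tops.1 hb
    have h1 : base s b ⊔ ((tops s).filter (fun c => c ≤ b ∧ e c < e b)).sup id ≤ low b := by
      refine sup_le (Finset.sup_le fun a ha => ?_) (Finset.sup_le fun c hc => ?_)
      · obtain ⟨-, ha1, ha2, ha3⟩ := Finset.mem_filter.1 ha
        refine le_low (lt_of_le_of_ne ha3 (fun h0 => hb2 ?_))
        rw [← h0]
        exact ha2
      · obtain ⟨-, hc2, hc3⟩ := Finset.mem_filter.1 hc
        refine le_low (lt_of_le_of_ne hc2 (fun h0 => ?_))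
        have h0' : c = b := h0
        rw [h0'] at hc3
        exact lt_irrefl _ hc3
    exact absurd (hle.trans h1) (not_le_of_gt (low_lt hb1))
  exact absurd hle (not_le_of_gt hlt)

/-- If all lower covers of join-irreducibles are below `s`, every element above a join-irreducible
`p` not below `s` is a join of `p` and an element not above `p`. -/
lemma exists_compl [IsUpperModularLattice L] {s p x : L} (hs : ∀ q : L, SupIrred q → low q ≤ s)
    (hp : SupIrred p) (hps : ¬ p ≤ s) (hpx : p ≤ x) : ∃ y : L, ¬ p ≤ y ∧ p ⊔ y = x := by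
  classical
  obtain ⟨y, hy⟩ := (Set.toFinite {y : L | x ⊓ s ≤ y ∧ y ≤ x ∧ ¬ p ≤ y}).exists_maximal
    ⟨x ⊓ s, le_rfl, inf_le_left, fun h => hps (h.trans inf_le_right)⟩
  obtain ⟨⟨hy1, hy2, hy3⟩, hymax⟩ := hy
  have cov : ∀ c : L, SupIrred c → c ≤ x → ¬ c ≤ y → y ⋖ c ⊔ y := fun c hc hcx hcy =>
    covBy_sup (fun w hw => (le_inf (hw.le.trans hcx) ((le_low hw).trans (hs c hc))).trans hy1) hcy
  refine ⟨y, hy3, le_antisymm (sup_le hpx hy2) ?_⟩
  by_contra hx
  obtain ⟨c, hc, hcx, hcn, -⟩ := exists_min hx
  have hcy : ¬ c ≤ y := fun h => hcn (h.trans le_sup_right)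
  have h1 := cov c hc hcx hcy
  have h2 : p ≤ c ⊔ y := by
    by_contra hpc
    have h3 := hymax (show c ⊔ y ∈ {y : L | x ⊓ s ≤ y ∧ y ≤ x ∧ ¬ p ≤ y} from
      ⟨hy1.trans le_sup_right, sup_le hcx hy2, hpc⟩) le_sup_right
    exact hcy (le_sup_left.trans h3)
  have h4 : p ⊔ y = c ⊔ y := by
    rcases h1.eq_or_eq (cov p hp hpx hy3).le (sup_le h2 le_sup_right) with h | h
    · exact absurd (h ▸ le_sup_left) hy3
    · exact h
  exact hcn (h4 ▸ le_sup_left)

/-- If all lower covers of join-irreducibles are below `s`, every join-irreducible not below `s`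
lies under at most half of the elements. -/
lemma card_le_of_low_le [IsUpperModularLattice L] {s a : L} (hlow : ∀ q : L, SupIrred q → low q ≤ s)
    (ha : SupIrred a) (has : ¬ a ≤ s) : 2 * Nat.card {x : L // a ≤ x} ≤ Nat.card L := by
  classical
  have hc := fun x : {x : L // a ≤ x} => exists_compl hlow ha has x.2
  choose f hf using hc
  have hinj : Function.Injective
      (fun x : {x : L // a ≤ x} => (⟨f x, (hf x).1⟩ : {y : L // ¬ a ≤ y})) := by
    intro x x' hxx
    have h1 : f x = f x' := congrArg Subtype.val hxx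
    apply Subtype.ext
    rw [← (hf x).2, ← (hf x').2, h1]
  have hcard := Nat.card_le_card_of_injective _ hinj
  have hsum : Nat.card {x : L // a ≤ x} + Nat.card {y : L // ¬ a ≤ y} = Nat.card L := by
    rw [← Nat.card_sum]
    exact Nat.card_congr (Equiv.sumCompl (fun x : L => a ≤ x))
  omega

end Order

theorem result (L : Type*) [Lattice L] [Finite L] [IsUpperModularLattice L] (s : L)
    (hs : ¬ IsMax s)
    (h1 : ∀ p c : L, SupIrred p → c ⋖ p → c ≤ s ∨ s ⋖ s ⊔ c)
    (h2 : ∀ p c : L, SupIrred p → c ⋖ p → ¬ c ≤ s → ∀ y : L, c ≤ y → p ≤ y ⊔ s → p ≤ y) :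
    ∃ a : L, SupIrred a ∧ ¬ a ≤ s ∧ 2 * Nat.card {x : L // a ≤ x} ≤ Nat.card L := by
  classical
  have := Fintype.ofFinite L
  have hne : Nonempty L := ⟨s⟩
  let _ : OrderBot L := Fintype.toOrderBot L
  have H : Hyp s := ⟨fun p hp => h1 p _ hp (low_covBy hp), fun p hp => h2 p _ hp (low_covBy hp)⟩
  rcases (tops s).eq_empty_or_nonempty with hT | hT
  · have hlow : ∀ q : L, SupIrred q → low q ≤ s := by
      intro q hq
      by_contra hqa
      have : q ∈ tops s := mem_tops.2 ⟨hq, hqa⟩
      rw [hT] at this
      exact absurd this (Finset.notMem_empty q)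
    rw [not_isMax_iff] at hs
    obtain ⟨b, hb⟩ := hs
    obtain ⟨a, ha, -, has, -⟩ := exists_min (not_le_of_gt hb)
    exact ⟨a, ha, has, card_le_of_low_le hlow ha has⟩
  · obtain ⟨a, ha, has, hle⟩ := main_tops H hT
    refine ⟨a, ha, has, ?_⟩
    rw [Nat.card_eq_fintype_card, Nat.card_eq_fintype_card, Fintype.card_subtype]
    exact hle

end Pool.Agent.Results.MP_e8229a_co.TwoSteps
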