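import Pool.Agent.H51.VC.Explicit

set_option autoImplicit false

/-!
# Frankl's inequality for all large finite lattices of bounded breadth, with an explicit bound

Let `L` be a finite lattice (semimodular or not) in which every set of maximal join-irreducibles has
a subset of at most `b` elements with the same join (for instance `L` of breadth at most `b`), with
at least `exp (exp (200 (b² + 1) log (b + 2)))` elements.  Then some maximal join-irreducible `a`
satisfies `2 |[a, 1]| < |L|`.

Proof (`N = |L|`, `Λ = log N`, all `|[m, 1]| ≥ N / 2`, `X`, `Y` independent and uniform on `L`).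
* Two levels (`H51/TwoLev`): maps `m ≤ g m ≤ g1 m` on the maximal join-irreducibles such that
  `T(x) = {m : g m ≤ x}` has few values (`≤ K`, `log K = O(b² log Λ)`), `T1(x) = {m : g1 m ≤ x}`
  very few (`≤ K1`, `log K1 = O(b² log (b log Λ))`), `T` determines `T1`, and
  `P(g m ≤ Y) ≥ 1/2 - e`, `P(g1 m ≤ Y) ≥ 1/2 - e - e1` with `e = 1/Λ`, `e1 = 1/(96 (b² + 1))`.
* Two-sided Shearer inequality (`H24/Sh`, `H24/Ts`): `H(X ∧ Y) ≥ H(T(X ∧ Y)) + (1-2e)(Λ - H(T))`
  and `H(T(X ∧ Y)) ≥ (1 - 2e - 2e1)(H(T) - log K1)`, so the law of `X ∧ Y` has relative entropy at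
  most `2 e Λ + 2 e1 log K + log K1` with respect to the uniform law.
* A set `E` (`H31/LB/ESet`) of at most `16 (e + log K / (2Λ)) N` elements with
  `P(X ∧ Y ∈ E) ≥ 1/4`: `E = {ν ≤ 3/8}`, where `ν(x)` is the weight of the coordinates below `x` in
  chain rule weights of total weight at most `1`.  So the relative entropy is at least
  `(1/4) log (N / |E|) - log 2` (`H40/VC/FinalS`).
* These bounds contradict each other for `log Λ ≥ 200 (b² + 1) log (b + 2)` (`H51/VC/Num`).
-/

namespace Pool.Agent.Results.MP_e8229a_co.VcExact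

theorem result (b : ℕ) (L : Type*) [Lattice L] [BoundedOrder L] [Finite L]
    (hb : ∀ A : Finset L, (∀ a ∈ A, Maximal SupIrred a) →
      ∃ B ⊆ A, B.card ≤ b ∧ B.sup id = A.sup id)
    (hN : Real.exp (Real.exp (200 * (((b : ℝ) ^ 2 + 1) * Real.log ((b : ℝ) + 2)))) ≤ Nat.card L) :
    ∃ a : L, Maximal SupIrred a ∧ 2 * Nat.card {x : L // a ≤ x} < Nat.card L := by
  have := Fintype.ofFinite L
  refine Pool.Agent.H51.VC.Explicit.core b L hb ?_
  rw [Nat.card_eq_fintype_card] at hN
  exact (Real.le_log_iff_exp_le ((Real.exp_pos _).trans_le hN)).2 hN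

end Pool.Agent.Results.MP_e8229a_co.VcExact
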